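import Pool.Agent.Helper51K9.OP.Defs
import Pool.Agent.Helper51K9.OP.Real
import Pool.Agent.Helper51K9.LI.Lw
import Pool.Agent.Helper51K9.LI.Br

/-!
# From one prime to all primes
-/

set_option autoImplicit false
set_option linter.unusedSectionVars false
set_option linter.unusedVariables false

namespace Pool.Agent.Helper51K9.OP.M

open Polynomial Matrix Pool.Agent.Helper51K9.LI Pool.Agent.Helper51K9.LI.M

section

variable {Λ : Type} {L : Λ → Type} [∀ l, Field (L l)] [∀ l, CharZero (L l)] {s : ℕ}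
  {D : Fin s → Type} [∀ w, Ring (D w)] [∀ w, Algebra ℚ (D w)] {m : Fin s → Λ → ℕ}
  {T : ∀ w l, D w → Mat (L l) (m w l) (m w l)} {e a b : ∀ w, D w}

theorem regular_all (hrk : S_RK) (hrke : S_RKE)
    (hom : ∀ w l, ∃ T' : D w →+* Mat (L l) (m w l) (m w l), ∀ x, T' x = T w l x)
    (hT : ∀ w, Rational (T w)) (hf : ∀ w, Faithful (T w)) (l₀ : Λ)
    (hn : ∀ w, HomEqNum (T w l₀)) (ht : ∀ w, e w * e w = e w) (hB : SameBettiNumber T e a b) :
    ∀ w, (∃ u, a w * u * a w = a w) ∧ ∃ v, b w * v * b w = b w := by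
  classical
  choose T' hT' using hom
  have key := fun (w : Fin s) (d : D w) => hrk Λ L (D w) (m w) (T' w)
    (fun x => by
      obtain ⟨χ, hχ⟩ := hT w x
      exact ⟨χ, fun l => by rw [hT']; exact hχ l⟩) l₀
    (fun x hx => by
      rw [hT']
      exact hn w x fun y => by rw [← hT']; exact hx y) d
  simp only [hT'] at key
  obtain ⟨N, hN⟩ := hB
  have he : ∀ w l, (T w l (e w)).rank = (T w l₀ (e w)).rank := by
    intro w l
    exact hrke Λ L (m w) (fun l => T w l (e w))
      (fun l => by rw [← hT', ← map_mul, ht]) (hT w (e w)) l l₀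
  have hle : ∀ (d : ∀ w, D w) w l, (T w l₀ (d w)).rank ≤ (T w l (d w)).rank := by
    intro d w l
    obtain ⟨u, hu⟩ := key w (d w)
    exact (hu l).1
  have heq : ∀ w l, (T w l (a w)).rank = (T w l₀ (a w)).rank ∧
      (T w l (b w)).rank = (T w l₀ (b w)).rank := by
    intro w l
    have h1 : ∑ w, ((T w l (a w)).rank + (T w l (b w)).rank) =
        ∑ w, ((T w l₀ (a w)).rank + (T w l₀ (b w)).rank) := by
      have h2 := (hN l).trans (hN l₀).symm
      simp only [Finset.sum_sub_distrib, he] at h2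
      have h3 : (∑ w, ((T w l (a w)).rank : ℤ)) + ∑ w, ((T w l (b w)).rank : ℤ) =
        (∑ w, ((T w l₀ (a w)).rank : ℤ)) + ∑ w, ((T w l₀ (b w)).rank : ℤ) := by linarith
      rw [Finset.sum_add_distrib, Finset.sum_add_distrib]
      exact_mod_cast h3
    have h4 := (Finset.sum_eq_sum_iff_of_le (s := Finset.univ)
      (fun w _ => add_le_add (hle a w l) (hle b w l))).1 h1.symm w (Finset.mem_univ w)
    have h5 := hle a w l
    have h6 := hle b w l
    omega
  intro w
  obtain ⟨u, hu⟩ := key w (a w)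
  obtain ⟨v, hv⟩ := key w (b w)
  refine ⟨⟨u, ?_⟩, v, ?_⟩
  · refine sub_eq_zero.1 (hf w _ fun l => ?_)
    rw [← hT', map_sub, hT', hT', (hu l).2 (heq w l).1, sub_self]
  · refine sub_eq_zero.1 (hf w _ fun l => ?_)
    rw [← hT', map_sub, hT', hT', (hv l).2 (heq w l).2, sub_self]

variable {G : Type} {S : Set G} {c : ∀ w, G → D w} {k : Fin s → Λ → ℕ}
  {act : ∀ w l, G → Mat (L l) (k w l) (k w l)} {α : ∀ w l, Mat (L l) (m w l) (k w l)}
  {β : ∀ w l, Mat (L l) (k w l) (m w l)}

/-- the graded pieces -/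
theorem pieces (hrk : S_RK) (hrke : S_RKE) (hex : S_EX) (hnil : S_NIL)
    (hC : ∀ w, IsCx S (e w) (a w) (b w) (c w))
    (hE : ∀ w l, Computes S (e w) (a w) (b w) (c w) (T w l) (act w l) (α w l) (β w l))
    (hT : ∀ w, Rational (T w)) (hf : ∀ w, Faithful (T w)) (l₀ : Λ)
    (hn : ∀ w, HomEqNum (T w l₀)) (hB : SameBettiNumber T e a b) (w : Fin s) :
    ∀ g ∈ S, ∃ P : ℚ[X], ∀ l, (act w l g).charpoly.reverse = P.map (algebraMap ℚ (L l)) := by
  classical
  intro g hg
  have hreg := regular_all hrk hrke (fun w l => (hE w l).hom) hT hf l₀ hn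
    (fun w => (hC w).terms.1) hB w
  choose T' hT' using fun w l => (hE w l).hom
  let TT : ∀ l, D w →+* Module.End (L l) (Fin (m w l) → L l) := fun l =>
    ((Matrix.toLinAlgEquiv' : Mat (L l) (m w l) (m w l) ≃ₐ[L l] _) : _ →+* _).comp (T' w l)
  have hTT : ∀ l x y, TT l x y = T w l x *ᵥ y := by
    intro l x y
    rw [← hT']
    rfl
  have HC : OP.IsComplex S L (fun l => Fin (k w l) → L l)
      (fun l g => (Matrix.toLinAlgEquiv' (act w l g) : Module.End (L l) (Fin (k w l) → L l)))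
      (fun l => Fin (m w l) → L l) TT (e w) (a w) (b w) (c w)
      (fun l => (α w l).mulVecLin) (fun l => (β w l).mulVecLin) := by
    refine ⟨hreg, fun x => ?_, (hC w).terms, fun l u => ?_, fun l y => ?_,
      fun l u => ?_, (hC w).commute, fun g hg l x h1 h2 => ?_⟩
    · obtain ⟨χ, hχ⟩ := hT w x
      refine ⟨χ, fun l => ?_⟩
      rw [← hχ l, ← hT']
      exact Matrix.charpoly_toLin' _
    · rw [hTT, hTT]
      change T w l (e w) *ᵥ (α w l *ᵥ u) = α w l *ᵥ u ∧ T w l (b w) *ᵥ (α w l *ᵥ u) = 0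
      rw [Matrix.mulVec_mulVec, Matrix.mulVec_mulVec, (hE w l).cocycle.1, (hE w l).cocycle.2,
        Matrix.zero_mulVec]
      exact ⟨rfl, rfl⟩
    · rw [hTT]
      change β w l *ᵥ (T w l (a w) *ᵥ y) = 0
      rw [Matrix.mulVec_mulVec, (hE w l).coboundary, Matrix.zero_mulVec]
    · change β w l *ᵥ (α w l *ᵥ u) = u
      rw [Matrix.mulVec_mulVec, (hE w l).section_, Matrix.one_mulVec]
    · rw [hTT] at h1 h2
      obtain ⟨y, hy⟩ := (hE w l).induce g hg x h1 h2
      refine ⟨y, ?_⟩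
      rw [hTT, hTT]
      exact hy
  obtain ⟨P, -, -, hP⟩ := OP.Real.rational hex hnil HC (OP.Real.mk' HC hg)
  refine ⟨P, fun l => ?_⟩
  rw [← hP l]
  congr 1
  exact (Matrix.charpoly_toLin' _).symm

/-- the elements of the Weil group -/
theorem weil_all (hrk : S_RK) (hrke : S_RKE) (hbt : S_BT) (hex : S_EX) (hnil : S_NIL)
    {n : ℕ} {ρ : ∀ l, G → Mat (L l) n n} (hG : ∀ l, IsGraded S (ρ l) fun w => act w l)
    (hC : ∀ w, IsCx S (e w) (a w) (b w) (c w))
    (hE : ∀ w l, Computes S (e w) (a w) (b w) (c w) (T w l) (act w l) (α w l) (β w l))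
    (hT : ∀ w, Rational (T w)) (hf : ∀ w, Faithful (T w)) (l₀ : Λ)
    (hn : ∀ w, HomEqNum (T w l₀)) (hB : SameBettiNumber T e a b) :
    SameCharacters S ρ act := by
  classical
  intro g hg
  have h1 := fun w => pieces hrk hrke hex hnil hC hE hT hf l₀ hn hB w g hg
  refine ⟨fun w => ?_, ?_⟩
  · obtain ⟨P, hP⟩ := h1 w
    refine ⟨P, fun l => ?_⟩
    rw [← hP l, Matrix.reverse_charpoly]
    rfl
  choose P hP using h1
  refine ⟨(∏ w, P w).reflect n, fun l => ?_⟩
  obtain ⟨B, B', hB1, hB2, hBg⟩ := hG l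
  obtain ⟨ht, hd⟩ := hBg g hg
  have h2 := hbt (L l) s n (fun w => k w l) (ρ l g) (fun w => act w l g) B B' hB1 hB2 ht hd
  have h3 : (ρ l g).charpoly.reverse = (∏ w, P w).map (algebraMap ℚ (L l)) := by
    rw [h2, Polynomial.map_prod]
    have h4 : ∀ t : Finset (Fin s), (∏ w ∈ t, (act w l g).charpoly).reverse =
        ∏ w ∈ t, (act w l g).charpoly.reverse := by
      intro t
      induction t using Finset.induction_on with
      | empty => simp [Polynomial.reverse]
      | insert w t hw ih =>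
        rw [Finset.prod_insert hw, Finset.prod_insert hw, Polynomial.reverse_mul_of_domain, ih]
    rw [h4]
    exact Finset.prod_congr rfl fun w _ => hP w l
  have h5 : (ρ l g).charpoly = ((ρ l g).charpoly.reverse).reflect n := by
    rw [Polynomial.reverse, Matrix.charpoly_natDegree_eq_dim, Fintype.card_fin,
      Polynomial.reflect_reflect]
  rw [h5, h3, Polynomial.reflect_map]

end

end Pool.Agent.Helper51K9.OP.M
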