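import Pool.Agent.Helper51K9.LI.Defs

/-!
# Definitions for `MP_a3c811_ag.OnePrimeSuffices` (in terms of matrices)
-/

set_option autoImplicit false

namespace Pool.Agent.Helper51K9.OP.M

open Polynomial Matrix Pool.Agent.Helper51K9.LI.M

/-- The relations between the projector `e` onto the middle term of a complex, the differentials `a`, `b` which end in
it and start from it, and the correspondences `c g`, in the ring `D`. -/
structure IsCx {G D : Type} [Ring D] (S : Set G) (e a b : D) (c : G → D) : Prop where
  terms : e * e = e ∧ e * a = a ∧ b * e = b ∧ b * a = 0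
  commute : ∀ g ∈ S, c g * e = e * c g ∧ c g * a = a * c g ∧ c g * b = b * c g

/-- Homological equivalence (the kernel of `T`) and numerical equivalence (the kernel of the trace form) agree. -/
def HomEqNum {L D : Type} [Field L] [Ring D] {m : ℕ} (T : D → Mat L m m) : Prop :=
  ∀ x, (∀ y, (T (x * y)).trace = 0) → T x = 0

/-- `ρ`, restricted to `S`, has a filtration with the graded pieces `act w`: in a suitable basis (`B`, with inverse `B'`)
the matrices `ρ g` are block triangular, with the diagonal blocks `act w g`. -/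
def IsGraded {G L : Type} [Field L] (S : Set G) {s n : ℕ} {k : Fin s → ℕ} (ρ : G → Mat L n n)
    (act : ∀ w, G → Mat L (k w) (k w)) : Prop :=
  ∃ (B : Matrix (Fin n) (Σ w, Fin (k w)) L) (B' : Matrix (Σ w, Fin (k w)) (Fin n) L),
    B * B' = 1 ∧ B' * B = 1 ∧ ∀ g ∈ S, (B' * ρ g * B).BlockTriangular Sigma.fst ∧
      ∀ w, (B' * ρ g * B).submatrix (Sigma.mk w) (Sigma.mk w) = act w g

section
variable {Λ : Type} {L : Λ → Type} [∀ l, Field (L l)] [∀ l, CharZero (L l)]

/-- An element of `D` which acts as zero for all `l` is zero. -/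
def Faithful {D : Type} [Ring D] {m : Λ → ℕ} (T : ∀ l, D → Mat (L l) (m l) (m l)) : Prop :=
  ∀ x, (∀ l, T l x = 0) → x = 0

/-- The sum over `w` of the dimensions of the cohomologies (in the middle terms) of the complexes does not depend on
`l`: the dimension of the kernel of `b` on the image of `e`, minus the rank of `a`, is
`rank e - rank b - rank a`. -/
def SameBettiNumber {s : ℕ} {D : Fin s → Type} {m : Fin s → Λ → ℕ}
    (T : ∀ w l, D w → Mat (L l) (m w l) (m w l)) (e a b : ∀ w, D w) : Prop :=
  ∃ N : ℤ, ∀ l, ∑ w, (((T w l (e w)).rank : ℤ) - (T w l (a w)).rank - (T w l (b w)).rank) = N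

/-- For all `g` in `S` the polynomials `det (1 - T g)` on the graded pieces, and the characteristic polynomial of `ρ g`, are
rational and do not depend on `l`. -/
def SameCharacters {G : Type} (S : Set G) {s n : ℕ} {k : Fin s → Λ → ℕ} (ρ : ∀ l, G → Mat (L l) n n)
    (act : ∀ w l, G → Mat (L l) (k w l) (k w l)) : Prop :=
  ∀ g ∈ S, (∀ w, ∃ P : ℚ[X], ∀ l, (1 - (X : (L l)[X]) • (act w l g).map C).det =
      P.map (algebraMap ℚ (L l))) ∧
    ∃ P : ℚ[X], ∀ l, (ρ l g).charpoly = P.map (algebraMap ℚ (L l))

/-- **The geometric input** (see the text of the hand-in): `ρ l` is the representation, `act w l` its graded pieces,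
`e w`, `a w`, `b w` and `c w g` the correspondences on the strata which give the complex of weight `w`, `T w l` the
action of correspondences on the cohomology of the strata, and `l₀` is one prime. -/
structure IsModel {G : Type} (S : Set G) {s n : ℕ} {D : Fin s → Type} [∀ w, Ring (D w)]
    {m k : Fin s → Λ → ℕ} (ρ : ∀ l, G → Mat (L l) n n)
    (act : ∀ w l, G → Mat (L l) (k w l) (k w l)) (e a b : ∀ w, D w) (c : ∀ w, G → D w)
    (T : ∀ w l, D w → Mat (L l) (m w l) (m w l)) (α : ∀ w l, Mat (L l) (m w l) (k w l))
    (β : ∀ w l, Mat (L l) (k w l) (m w l)) (l₀ : Λ) : Prop where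
  graded : ∀ l, IsGraded S (ρ l) fun w => act w l
  complex : ∀ w, IsCx S (e w) (a w) (b w) (c w)
  computes : ∀ w l, Computes S (e w) (a w) (b w) (c w) (T w l) (act w l) (α w l) (β w l)
  rational : ∀ w, Rational (T w)
  faithful : ∀ w, Faithful (T w)
  homEqNum : ∀ w, HomEqNum (T w l₀)
  betti : SameBettiNumber T e a b

end

end Pool.Agent.Helper51K9.OP.M
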