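import Pool.Agent.Helper51K9.OP.Asm
import Pool.Agent.Helper51K9.LI.Rk
import Pool.Agent.Helper51K9.LI.Rke
import Pool.Agent.Helper51K9.LI.Bt
import Pool.Agent.Helper51K9.LI.Rg0
import Pool.Agent.Helper3K9.EW.Main

/-!
# From one prime to all primes: assembly
-/

set_option autoImplicit false

namespace Pool.Agent.Helper51K9.OP.M

open Polynomial Matrix Pool.Agent.Helper51K9.LI Pool.Agent.Helper51K9.LI.M

theorem model_same {Λ : Type} {L : Λ → Type} [∀ l, Field (L l)] [∀ l, CharZero (L l)] {s : ℕ}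
    {D : Fin s → Type} [∀ w, Ring (D w)] [∀ w, Algebra ℚ (D w)] {m k : Fin s → Λ → ℕ}
    {T : ∀ w l, D w → Mat (L l) (m w l) (m w l)} {e a b : ∀ w, D w}
    {G : Type} {S : Set G} {c : ∀ w, G → D w}
    {act : ∀ w l, G → Mat (L l) (k w l) (k w l)} {α : ∀ w l, Mat (L l) (m w l) (k w l)}
    {β : ∀ w l, Mat (L l) (k w l) (m w l)} {n : ℕ} {ρ : ∀ l, G → Mat (L l) n n} {l₀ : Λ}
    (h : IsModel S ρ act e a b c T α β l₀) : SameCharacters S ρ act :=
  weil_all (rk rg0) rke bt Pool.Agent.Helper86K9.LI.ex_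
    (Pool.Agent.Helper86K9.LI.nil_ Pool.Agent.Helper86K9.LI.ex_) h.graded h.complex h.computes
    h.rational h.faithful l₀ h.homEqNum h.betti

end Pool.Agent.Helper51K9.OP.M
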